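import Pool.Agent.H92HM.Extra

set_option autoImplicit false

open MeasureTheory Filter Topology
open scoped ENNReal

namespace Pool.Agent.Results.MP_e5c6de_an.HiderDescribed

open Pool.Agent.H92HM

/-- The continuous high-low game, hider's side.
(1) The hider has an optimal strategy, and even one symmetric under `h ↦ 1 - h`.
(2) Every optimal hider strategy has no atoms and has support `[0,1]`.
(3) Optimal strategies are obtained from the finite games in which the hider is restricted to the
dyadic grid of level `k`: for strategies `ν k` optimal there up to `ε k → 0`, the guarantees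
converge to the maximin value, some subsequence converges weakly, and every weak limit of a
subsequence is optimal in the continuous game.
(4) The game has a value: Red has a mixed strategy that guarantees the maximin value against
every hider strategy, and against any such mixed strategy almost every secret (for any optimal
hider strategy) has expected payoff exactly the value. -/
theorem result :
    (∃ μ : ProbabilityMeasure unitInterval, IsOptimal μ ∧
      (μ : Measure unitInterval).map unitInterval.symm = (μ : Measure unitInterval)) ∧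
    (∀ μ : ProbabilityMeasure unitInterval, IsOptimal μ →
      (∀ x : unitInterval, (μ : Measure unitInterval) {x} = 0) ∧
      (∀ U : Set unitInterval, IsOpen U → U.Nonempty → 0 < (μ : Measure unitInterval) U)) ∧
    (∀ (ν : ℕ → ProbabilityMeasure unitInterval) (ε : ℕ → ℝ≥0∞), Tendsto ε atTop (𝓝 0) →
      (∀ k, IsGridOptimal k (ε k) (ν k)) →
      Tendsto (fun k => guarantee (ν k)) atTop (𝓝 maximin) ∧
      (∃ φ : ℕ → ℕ, StrictMono φ ∧ ∃ μ, Tendsto (ν ∘ φ) atTop (𝓝 μ)) ∧
      (∀ φ : ℕ → ℕ, StrictMono φ → ∀ μ, Tendsto (ν ∘ φ) atTop (𝓝 μ) → IsOptimal μ)) ∧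
    (∃ σ : ProbabilityMeasure Rule,
      ⨆ ν : ProbabilityMeasure unitInterval, expPayoff ν σ = maximin) ∧
    (∀ (μ : ProbabilityMeasure unitInterval) (σ : ProbabilityMeasure Rule), IsOptimal μ →
      ⨆ ν : ProbabilityMeasure unitInterval, expPayoff ν σ = maximin →
      ∀ᵐ h ∂(μ : Measure unitInterval),
        ∫⁻ s, payoff s h ∂(σ : Measure Rule) = maximin) := by
  refine ⟨?_, fun μ hμ => ?_, fun ν ε hε hν => ?_, ?_, fun μ σ hμ hσ => ?_⟩
  · obtain ⟨μ, hμ, hs⟩ := exists_symm_optimal
    exact ⟨μ, (isOptimal_iff μ).2 hμ, hs⟩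
  · rw [isOptimal_iff] at hμ
    exact ⟨optimal_no_atom μ hμ, fun U hU hne => pos_iff_ne_zero.2 (optimal_support μ hμ U hU hne)⟩
  · have h1 := grid_limit ν ε hε hν
    refine ⟨h1, ?_, fun φ hφ μ hμ => ?_⟩
    · obtain ⟨μ, φ, hφ, hlim⟩ := CompactSpace.tendsto_subseq ν
      exact ⟨φ, hφ, μ, hlim⟩
    · rw [isOptimal_iff]
      simp only [iInf_exp] at h1
      exact limit_optimal (L := atTop) (ν ∘ φ) (h1.comp hφ.tendsto_atTop) μ hμ
  · obtain ⟨σ, hσ⟩ := exists_sigma
    refine ⟨σ, le_antisymm (iSup_le fun ν => exp_le ν σ _ hσ) ?_⟩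
    rw [← minimax]
    exact iInf_le _ σ
  · rw [isOptimal_iff] at hμ
    exact slack μ hμ σ fun h => (bound_of_iSup σ h).trans hσ.le

end Pool.Agent.Results.MP_e5c6de_an.HiderDescribed
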