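import Pool.Agent.H92HL.Support

set_option autoImplicit false

open MeasureTheory
open scoped ENNReal

namespace Pool.Agent.Results.MP_e5c6de_an.OptimalHider

open Pool.Agent.H92HL

/-- In the continuous high-low game the hider has an optimal strategy (the supremum defining the
maximin value is attained); every optimal hider strategy has no atoms (not even at the endpoints)
and gives positive mass to every nonempty open subset of `[0,1]` (so its support is `[0,1]`). -/
theorem result :
    (∃ μ : ProbabilityMeasure unitInterval, IsOptimal μ) ∧
    ∀ μ : ProbabilityMeasure unitInterval, IsOptimal μ →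
      (∀ x : unitInterval, (μ : Measure unitInterval) {x} = 0) ∧
      (∀ U : Set unitInterval, IsOpen U → U.Nonempty → 0 < (μ : Measure unitInterval) U) := by
  refine ⟨?_, fun μ hμ => ?_⟩
  · obtain ⟨μ, hμ⟩ := exists_optimal
    exact ⟨μ, (isOptimal_iff μ).2 hμ⟩
  · rw [isOptimal_iff] at hμ
    exact ⟨optimal_no_atom μ hμ, fun U hU hne => pos_iff_ne_zero.2 (optimal_support μ hμ U hU hne)⟩

end Pool.Agent.Results.MP_e5c6de_an.OptimalHider
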